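import Pool.Agent.Helper29.CP.Defs

/-!
MP_82cbb9_al: basic properties of Fox derivations and coefficient systems.
-/

set_option autoImplicit false

namespace Pool.Agent.CP

open Polynomial

section Fox

variable {d k : ℕ} {B : Type*} [AddCommGroup B]
variable (act : TT k →* AddMonoid.End B) (τ : FreeGroup (Fin d) →* TT k) (e : Fin d → B)

theorem fox_lift_apply (f : FreeGroup (Fin d)) (b : B) :
    FreeGroup.lift (fun i => affPerm act (τ (FreeGroup.of i)) (e i)) f b
      = act (τ f) b + fox act τ e f := by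
  induction f using FreeGroup.induction_on generalizing b with
  | C1 => simp [fox]
  | of i => simp [fox, affPerm]
  | inv_of i _ =>
    simp only [fox, map_inv, FreeGroup.lift_apply_of, Equiv.Perm.inv_def]
    simp only [affPerm, Equiv.symm_mk, Equiv.coe_fn_mk, sub_eq_add_neg, map_add, map_zero,
      zero_add]
  | mul x y hx hy =>
    have h1 : ∀ b, FreeGroup.lift (fun i => affPerm act (τ (FreeGroup.of i)) (e i)) (x * y) b
        = FreeGroup.lift (fun i => affPerm act (τ (FreeGroup.of i)) (e i)) x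
          (FreeGroup.lift (fun i => affPerm act (τ (FreeGroup.of i)) (e i)) y b) := by
      intro b; rw [map_mul]; rfl
    have h2 : act (τ (x * y)) b = act (τ x) (act (τ y) b) := by
      rw [map_mul, map_mul]; rfl
    rw [fox, h1, h1, hy, hx, hy 0, hx (act (τ y) 0 + _), h2]
    simp only [map_add, map_zero, zero_add, add_assoc]

@[simp] theorem fox_of (i : Fin d) : fox act τ e (FreeGroup.of i) = e i := by
  simp [fox, affPerm]

@[simp] theorem fox_one : fox act τ e 1 = 0 := by simp [fox]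

theorem fox_mul (f g : FreeGroup (Fin d)) :
    fox act τ e (f * g) = act (τ f) (fox act τ e g) + fox act τ e f := by
  have := fox_lift_apply act τ e f (fox act τ e g)
  rw [← this]
  simp [fox]

theorem fox_inv (f : FreeGroup (Fin d)) :
    fox act τ e f⁻¹ = - act (τ f)⁻¹ (fox act τ e f) := by
  have h := fox_mul act τ e f⁻¹ f
  rw [inv_mul_cancel, fox_one, map_inv] at h
  exact eq_neg_of_add_eq_zero_right h.symm

/-- on the kernel of `τ` the Fox derivation is additive -/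
theorem fox_mul_ker {f : FreeGroup (Fin d)} (hf : f ∈ τ.ker) (g : FreeGroup (Fin d)) :
    fox act τ e (f * g) = fox act τ e f + fox act τ e g := by
  rw [fox_mul, (MonoidHom.mem_ker).1 hf, map_one, add_comm]; rfl

theorem fox_inv_ker {f : FreeGroup (Fin d)} (hf : f ∈ τ.ker) :
    fox act τ e f⁻¹ = - fox act τ e f := by
  rw [fox_inv, (MonoidHom.mem_ker).1 hf, inv_one, map_one]; rfl

/-- equivariance on the kernel of `τ` -/
theorem fox_conj (f : FreeGroup (Fin d)) {l : FreeGroup (Fin d)} (hl : l ∈ τ.ker) :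
    fox act τ e (f * l * f⁻¹) = act (τ f) (fox act τ e l) := by
  rw [fox_mul, fox_mul, map_mul, (MonoidHom.mem_ker).1 hl, mul_one, fox_inv, map_neg]
  have : act (τ f) (act (τ f)⁻¹ (fox act τ e f)) = fox act τ e f := by
    have h : (act (τ f) * act (τ f)⁻¹) (fox act τ e f) = fox act τ e f := by
      rw [← map_mul, mul_inv_cancel, map_one]; rfl
    exact h
  rw [this]; abel

/-- the elements of `ker τ` on which the derivation vanishes -/
def foxKer : Subgroup (FreeGroup (Fin d)) where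
  carrier := {l | l ∈ τ.ker ∧ fox act τ e l = 0}
  one_mem' := ⟨τ.ker.one_mem, fox_one _ _ _⟩
  mul_mem' {a b} ha hb := ⟨τ.ker.mul_mem ha.1 hb.1, by
    rw [fox_mul_ker act τ e ha.1, ha.2, hb.2, add_zero]⟩
  inv_mem' {a} ha := ⟨τ.ker.inv_mem ha.1, by rw [fox_inv_ker act τ e ha.1, ha.2, neg_zero]⟩

theorem mem_foxKer {l : FreeGroup (Fin d)} :
    l ∈ foxKer act τ e ↔ l ∈ τ.ker ∧ fox act τ e l = 0 := Iff.rfl

instance foxKer_normal : (foxKer act τ e).Normal := ⟨fun l hl f =>
  ⟨(inferInstance : τ.ker.Normal).conj_mem l hl.1 f, by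
    rw [fox_conj act τ e f hl.1, hl.2, map_zero]⟩⟩

theorem fox_comm {a b : FreeGroup (Fin d)} (ha : a ∈ τ.ker) (hb : b ∈ τ.ker) :
    fox act τ e (a * b * a⁻¹ * b⁻¹) = 0 := by
  rw [fox_mul_ker act τ e (τ.ker.mul_mem (τ.ker.mul_mem ha hb) (τ.ker.inv_mem ha)),
    fox_mul_ker act τ e (τ.ker.mul_mem ha hb), fox_mul_ker act τ e ha, fox_inv_ker act τ e ha,
    fox_inv_ker act τ e hb]
  abel

theorem commutator_le_foxKer : ⁅τ.ker, τ.ker⁆ ≤ foxKer act τ e := by
  rw [Subgroup.commutator_le]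
  intro a ha b hb
  refine ⟨?_, fox_comm act τ e ha hb⟩
  exact τ.ker.mul_mem (τ.ker.mul_mem (τ.ker.mul_mem ha hb) (τ.ker.inv_mem ha)) (τ.ker.inv_mem hb)

end Fox

namespace Sys

variable {k d c : ℕ} (S : Sys k d c) (τ : FreeGroup (Fin d) →* TT k)

theorem act_mul_apply (s t : TT k) (a : S.A) : S.act (s * t) a = S.act s (S.act t a) := by
  rw [map_mul]; rfl

@[simp] theorem act_one_apply (a : S.A) : S.act 1 a = a := by rw [map_one]; rfl

theorem Phi_of (i : Fin d) (a : S.A) :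
    S.Phi τ (FreeGroup.of i) a = (1 + S.gen i) * S.act (τ (FreeGroup.of i)) a := by
  simp only [Phi, op, FreeGroup.lift_apply_of]
  rfl

@[simp] theorem u_one : S.u τ 1 = 1 := by simp [u]

theorem Phi_apply (f : FreeGroup (Fin d)) (a : S.A) :
    S.Phi τ f a = S.u τ f * S.act (τ f) a := by
  induction f using FreeGroup.induction_on generalizing a with
  | C1 => simp [u]
  | of i => simp [u, Phi_of]
  | inv_of i _ =>
    have key : ∀ b, S.Phi τ (FreeGroup.of i)⁻¹ ((1 + S.gen i) * b)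
        = S.act (τ (FreeGroup.of i))⁻¹ b := by
      intro b
      have h : S.Phi τ (FreeGroup.of i) (S.act (τ (FreeGroup.of i))⁻¹ b)
          = (1 + S.gen i) * b := by
        rw [Phi_of, ← act_mul_apply, mul_inv_cancel, act_one_apply]
      rw [← h, map_inv]
      exact (S.Phi τ (FreeGroup.of i)).symm_apply_apply _
    obtain ⟨w, hw⟩ := (S.isUnit_one_add i).exists_right_inv
    have h1 : ∀ a, S.Phi τ (FreeGroup.of i)⁻¹ a = S.act (τ (FreeGroup.of i))⁻¹ (w * a) := by
      intro a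
      rw [← key, ← mul_assoc, hw, one_mul]
    rw [u, h1, h1, mul_one, map_mul, map_inv τ]
  | mul x y hx hy =>
    have h1 : ∀ a, S.Phi τ (x * y) a = S.Phi τ x (S.Phi τ y a) := by
      intro a; rw [map_mul]; rfl
    rw [u, h1, h1, hy 1, hx, hy a, hx]
    simp only [map_one, mul_one, map_mul, mul_assoc]
    rfl

theorem u_of (i : Fin d) : S.u τ (FreeGroup.of i) = 1 + S.gen i := by
  rw [u, Phi_of, map_one, mul_one]

theorem u_mul (f g : FreeGroup (Fin d)) :
    S.u τ (f * g) = S.u τ f * S.act (τ f) (S.u τ g) := by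
  have h1 : S.Phi τ (f * g) 1 = S.Phi τ f (S.Phi τ g 1) := by rw [map_mul]; rfl
  rw [u, h1, Phi_apply]; rfl

theorem u_mul_ker {f : FreeGroup (Fin d)} (hf : f ∈ τ.ker) (g : FreeGroup (Fin d)) :
    S.u τ (f * g) = S.u τ f * S.u τ g := by
  rw [u_mul, (MonoidHom.mem_ker).1 hf, act_one_apply]

theorem u_inv (f : FreeGroup (Fin d)) : S.u τ f * S.act (τ f) (S.u τ f⁻¹) = 1 := by
  rw [← u_mul, mul_inv_cancel, u_one]

theorem u_inv_ker {f : FreeGroup (Fin d)} (hf : f ∈ τ.ker) :
    S.u τ f * S.u τ f⁻¹ = 1 ∧ S.u τ f⁻¹ * S.u τ f = 1 := by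
  constructor
  · rw [← u_mul_ker S τ hf, mul_inv_cancel, u_one]
  · rw [← u_mul_ker S τ (τ.ker.inv_mem hf), inv_mul_cancel, u_one]

theorem actJ_pow (t : TT k) (i : ℕ) {x : S.A} (hx : x ∈ S.J ^ i) : S.act t x ∈ S.J ^ i := by
  have hle : (S.J ^ i) ≤ (S.J ^ i).comap (S.act t : S.A →+* S.A) := by
    have h1 : S.J ≤ S.J.comap (S.act t : S.A →+* S.A) := fun x hx => S.actJ t x hx
    have : ∀ i, ∀ x ∈ S.J ^ i, S.act t x ∈ S.J ^ i := by
      intro i
      induction i with
      | zero => intro x _; rw [Submodule.pow_zero, Ideal.one_eq_top]; trivial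
      | succ n ih =>
        intro x hx
        rw [Ideal.IsTwoSided.pow_succ] at hx ⊢
        refine Submodule.mul_induction_on hx ?_ ?_
        · intro a ha b hb
          rw [map_mul]
          exact Ideal.mul_mem_mul (S.actJ t a ha) (ih b hb)
        · intro a b ha hb
          rw [map_add]
          exact Ideal.add_mem _ ha hb
    intro x hx
    exact this i x hx
  exact hle hx

theorem u_sub_one_mem (f : FreeGroup (Fin d)) : S.u τ f - 1 ∈ S.J := by
  induction f using FreeGroup.induction_on with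
  | C1 => simp
  | of i => rw [u_of, add_sub_cancel_left]; exact S.genJ i
  | inv_of i _ =>
    have h := S.u_inv τ (FreeGroup.of i)
    have h2 : S.act (τ (FreeGroup.of i)) (S.u τ (FreeGroup.of i)⁻¹ - 1) ∈ S.J := by
      rw [map_sub, map_one]
      have h3 : S.act (τ (FreeGroup.of i)) (S.u τ (FreeGroup.of i)⁻¹) - 1
          = - (S.gen i * S.act (τ (FreeGroup.of i)) (S.u τ (FreeGroup.of i)⁻¹)) := by
        rw [u_of, add_mul, one_mul] at h
        rw [← h]; noncomm_ring
      rw [h3]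
      exact S.J.neg_mem (S.J.mul_mem_right _ (S.genJ i))
    have h4 := S.actJ (τ (FreeGroup.of i))⁻¹ _ h2
    rwa [← act_mul_apply, inv_mul_cancel, act_one_apply] at h4
  | mul x y hx hy =>
    rw [u_mul]
    have : S.u τ x * S.act (τ x) (S.u τ y) - 1
        = S.u τ x * S.act (τ x) (S.u τ y - 1) + (S.u τ x - 1) := by
      rw [map_sub, map_one]; noncomm_ring
    rw [this]
    exact S.J.add_mem (S.J.mul_mem_left _ (S.actJ _ _ hy)) hx

/-- `D i` : the elements of `ker τ` with `u - 1 ∈ J ^ i` -/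
def D (i : ℕ) : Subgroup (FreeGroup (Fin d)) where
  carrier := {l | l ∈ τ.ker ∧ S.u τ l - 1 ∈ S.J ^ i}
  one_mem' := ⟨τ.ker.one_mem, by simp⟩
  mul_mem' {a b} ha hb := ⟨τ.ker.mul_mem ha.1 hb.1, by
    rw [u_mul_ker S τ ha.1]
    have : S.u τ a * S.u τ b - 1 = S.u τ a * (S.u τ b - 1) + (S.u τ a - 1) := by noncomm_ring
    rw [this]
    exact Ideal.add_mem _ (Ideal.mul_mem_left _ _ hb.2) ha.2⟩
  inv_mem' {a} ha := ⟨τ.ker.inv_mem ha.1, by
    have h := (u_inv_ker S τ ha.1).2
    have : S.u τ a⁻¹ - 1 = - (S.u τ a⁻¹ * (S.u τ a - 1)) := by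
      rw [mul_sub, h]; noncomm_ring
    rw [this]
    exact Ideal.neg_mem_iff _ |>.2 (Ideal.mul_mem_left _ _ ha.2)⟩

theorem mem_D {i : ℕ} {l : FreeGroup (Fin d)} :
    l ∈ S.D τ i ↔ l ∈ τ.ker ∧ S.u τ l - 1 ∈ S.J ^ i := Iff.rfl

/-- the elements of `ker τ` with `u = 1` -/
def Ker : Subgroup (FreeGroup (Fin d)) := S.D τ (c + 1)

theorem mem_Ker {l : FreeGroup (Fin d)} : l ∈ S.Ker τ ↔ l ∈ τ.ker ∧ S.u τ l = 1 := by
  rw [Ker, mem_D, S.nil, Ideal.mem_bot, sub_eq_zero]

theorem u_conj (f : FreeGroup (Fin d)) {l : FreeGroup (Fin d)} (hl : l ∈ τ.ker) :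
    S.u τ (f * l * f⁻¹) = S.u τ f * S.act (τ f) (S.u τ l) * S.act (τ f) (S.u τ f⁻¹) := by
  rw [u_mul, u_mul, map_mul, (MonoidHom.mem_ker).1 hl, mul_one]

instance D_normal (i : ℕ) : (S.D τ i).Normal := ⟨fun l hl f =>
  ⟨(inferInstance : τ.ker.Normal).conj_mem l hl.1 f, by
    rw [u_conj S τ f hl.1]
    have h := S.u_inv τ f
    have : S.u τ f * S.act (τ f) (S.u τ l) * S.act (τ f) (S.u τ f⁻¹) - 1
        = S.u τ f * S.act (τ f) (S.u τ l - 1) * S.act (τ f) (S.u τ f⁻¹) := by
      rw [map_sub, map_one, mul_sub, sub_mul, mul_one, h]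
    rw [this]
    exact Ideal.mul_mem_right _ _ (Ideal.mul_mem_left _ _ (S.actJ_pow _ _ hl.2))⟩⟩

end Sys

end Pool.Agent.CP
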