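import Pool.Agent.Helper29.CP.Base
import Pool.Agent.Helper80.CP.Fox
import Pool.Agent.Helper66.CP.SysLemmas
import Pool.Agent.Helper47.CP.Rep

/-!
MP_82cbb9_al, module CP-6: the star lemma (by helper85).
-/

set_option autoImplicit false

namespace Pool.Agent.CP

open Polynomial

section CP6
variable {d k : ℕ}

theorem CP6_foxU_mul_ker (τ : FreeGroup (Fin d) →* TT k) {f : FreeGroup (Fin d)} (hf : f ∈ τ.ker)
    (g : FreeGroup (Fin d)) : foxU τ (f * g) = foxU τ f + foxU τ g :=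
  fox_mul_ker _ _ _ hf g

theorem CP6_foxU_inv_ker (τ : FreeGroup (Fin d) →* TT k) {f : FreeGroup (Fin d)}
    (hf : f ∈ τ.ker) : foxU τ f⁻¹ = - foxU τ f :=
  fox_inv_ker _ _ _ hf

theorem CP6_foxU_conj (τ : FreeGroup (Fin d) →* TT k) (f : FreeGroup (Fin d))
    {l : FreeGroup (Fin d)} (hl : l ∈ τ.ker) :
    foxU τ (f * l * f⁻¹) = (MonoidAlgebra.of ℤ (TT k) (τ f) : RR k) • foxU τ l :=
  fox_conj _ _ _ f hl

theorem CP6_foxU_comm (τ : FreeGroup (Fin d) →* TT k) {z : FreeGroup (Fin d)}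
    (hz : z ∈ ⁅τ.ker, τ.ker⁆) : z ∈ τ.ker ∧ foxU τ z = 0 :=
  commutator_le_foxKer (actB k d) τ (fun i => Pi.single i 1) hz

theorem CP6_prim_pow {p : ℤ[X]} (hp : p.IsPrimitive) (n : ℕ) : (p ^ n).IsPrimitive := by
  induction n with
  | zero => rw [pow_zero]; exact Polynomial.isPrimitive_one
  | succ n ih => rw [pow_succ]; exact ih.mul hp

/-- `pw` stays in a normal subgroup -/
theorem CP6_pw_mem {G : Type*} [Group G] (K : Subgroup G) [K.Normal] (f : G) {y : G} (hy : y ∈ K)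
    (p : ℤ[X]) : pw f y p ∈ K := by
  unfold pw
  apply Subgroup.list_prod_mem
  intro x hx
  rw [List.mem_map] at hx
  obtain ⟨n, -, rfl⟩ := hx
  exact K.zpow_mem ((inferInstance : K.Normal).conj_mem y hy _) _

end CP6

/-- CP-6a (the star lemma) -/
theorem star {k d c : ℕ} (S : Sys k d c) (τ : FreeGroup (Fin d) →* TT k)
    (hτ : Function.Surjective τ) (K : Subgroup (FreeGroup (Fin d))) [K.Normal] (hK : K ≤ τ.ker)
    (g : Fin k → ℤ[X]) (hg : ∀ a, (g a).IsPrimitive)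
    (hgK : ∀ a f, τ f = tt a → ∀ l ∈ τ.ker, pw f l (g a) ∈ K ⊔ ⁅τ.ker, τ.ker⁆) :
    ∃ b : Fin k → ℤ[X], (∀ a, (b a).IsPrimitive) ∧ ∀ a, ∀ l ∈ τ.ker, ∃ y ∈ K ⊓ S.Ker τ,
      foxU τ y = (aeval (MonoidAlgebra.of ℤ (TT k) (tt a)) (b a) : RR k) • foxU τ l := by
  choose f hf using fun a : Fin k => hτ (tt a)
  choose α hα hα0 using fun a : Fin k =>
    exists_primitive_annihilator ((S.act (tt a)).toLinearMap : Module.End ℚ S.A)
  refine ⟨fun a => (α a) ^ c * g a, fun a => ?_, fun a l hl => ?_⟩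
  · exact (CP6_prim_pow (hα a) c).mul (hg a)
  · -- induction on the level
    have step : ∀ i : ℕ, ∃ y ∈ K ⊓ S.D τ (i + 1), foxU τ y
        = (aeval (MonoidAlgebra.of ℤ (TT k) (tt a)) ((α a) ^ i * g a) : RR k) • foxU τ l := by
      intro i
      induction i with
      | zero =>
        have h := hgK a (f a) (hf a) l hl
        rw [Subgroup.mem_sup_of_normal_left] at h
        obtain ⟨y0, hy0, z, hz, hyz⟩ := h
        refine ⟨y0, ⟨hy0, hK hy0, ?_⟩, ?_⟩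
        · rw [zero_add, Submodule.pow_one]
          exact S.u_sub_one_mem τ y0
        · have h1 := foxU_pw τ (f a) hl (g a)
          rw [← hyz, CP6_foxU_mul_ker τ (hK hy0), (CP6_foxU_comm τ hz).2, add_zero, hf a] at h1
          rw [h1, pow_zero, one_mul]
      | succ i ih =>
        obtain ⟨y, ⟨hyK, hyD⟩, hy⟩ := ih
        refine ⟨pw (f a) y (α a), ⟨CP6_pw_mem K _ hyK _, ?_⟩, ?_⟩
        · refine Sys.D_pw S τ (Nat.succ_le_succ (Nat.zero_le i)) hyD (α a) ?_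
          rw [hf a]; exact hα0 a
        · rw [foxU_pw τ (f a) (hK hyK), hy, hf a, smul_smul, ← map_mul, pow_succ', mul_assoc]
    obtain ⟨y, hy, h⟩ := step c
    exact ⟨y, hy, h⟩

/-- CP-6b -/
theorem exists_rep_star {k d c : ℕ} (S : Sys k d c) (τ : FreeGroup (Fin d) →* TT k)
    (hτ : Function.Surjective τ) (K : Subgroup (FreeGroup (Fin d))) [K.Normal] (hK : K ≤ τ.ker)
    (g : Fin k → ℤ[X]) (hg : ∀ a, (g a).IsPrimitive)
    (hgK : ∀ a f, τ f = tt a → ∀ l ∈ τ.ker, pw f l (g a) ∈ K ⊔ ⁅τ.ker, τ.ker⁆) :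
    ∃ (E : Type) (_ : AddCommGroup E) (_ : Module ℚ E) (_ : FiniteDimensional ℚ E)
      (ρ : TT k →* Module.End ℚ E) (ε : Fin d → E),
      foxKer (actE ρ) τ ε ≤ (K ⊓ S.Ker τ) ⊔ ⁅τ.ker, τ.ker⁆ := by
  obtain ⟨b, hb, hstar⟩ := star S τ hτ K hK g hg hgK
  -- the additive subgroup `δ(L)`
  have hadd : ∀ m₁ m₂ : Fin d → RR k, (∃ l ∈ τ.ker, foxU τ l = m₁) →
      (∃ l ∈ τ.ker, foxU τ l = m₂) → ∃ l ∈ τ.ker, foxU τ l = m₁ + m₂ := by
    rintro _ _ ⟨l₁, h₁, rfl⟩ ⟨l₂, h₂, rfl⟩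
    exact ⟨l₁ * l₂, τ.ker.mul_mem h₁ h₂, CP6_foxU_mul_ker τ h₁ l₂⟩
  have hone : foxU τ 1 = 0 := fox_one _ _ _
  have hsmulT : ∀ (t : TT k) (m : Fin d → RR k), (∃ l ∈ τ.ker, foxU τ l = m) →
      ∃ l ∈ τ.ker, foxU τ l = (MonoidAlgebra.of ℤ (TT k) t : RR k) • m := by
    rintro t _ ⟨l, h, rfl⟩
    obtain ⟨f, rfl⟩ := hτ t
    exact ⟨f * l * f⁻¹, (inferInstance : τ.ker.Normal).conj_mem l h f, CP6_foxU_conj τ f h⟩
  have hsmulZ : ∀ (n : ℤ) (m : Fin d → RR k), (∃ l ∈ τ.ker, foxU τ l = m) →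
      ∃ l ∈ τ.ker, foxU τ l = n • m := by
    rintro n _ ⟨l, h, rfl⟩
    refine ⟨l ^ n, τ.ker.zpow_mem h n, ?_⟩
    have key : ∀ n : ℕ, foxU τ (l ^ n) = n • foxU τ l := by
      intro n
      induction n with
      | zero => simp [hone]
      | succ n ih => rw [pow_succ, CP6_foxU_mul_ker τ (τ.ker.pow_mem h n), ih, succ_nsmul]
    cases n with
    | ofNat n => simpa using key n
    | negSucc n =>
      rw [zpow_negSucc, CP6_foxU_inv_ker τ (τ.ker.pow_mem h _), key, negSucc_zsmul]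
  let M : Submodule (RR k) (Fin d → RR k) :=
    { carrier := {m | ∃ l ∈ τ.ker, foxU τ l = m}
      zero_mem' := ⟨1, τ.ker.one_mem, hone⟩
      add_mem' := fun {m₁ m₂} h₁ h₂ => hadd m₁ m₂ h₁ h₂
      smul_mem' := by
        intro r m hm
        induction r using MonoidAlgebra.induction_on with
        | of t => exact hsmulT t m hm
        | add r₁ r₂ h₁ h₂ => rw [add_smul]; exact hadd _ _ h₁ h₂
        | smul n r h => rw [smul_assoc]; exact hsmulZ n _ h }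
  obtain ⟨E, i1, i2, i3, ρ, ε, hrep⟩ := exists_rep M b hb
  refine ⟨E, i1, i2, i3, ρ, ε, ?_⟩
  intro l hl
  rw [mem_foxKer] at hl
  obtain ⟨hl, hl0⟩ := hl
  have h1 := hrep (foxU τ l) ⟨l, hl, rfl⟩ (by rw [kap_foxU, hl0])
  -- elements of `I • M` come from `K ⊓ Ker`
  have hN : ∀ m ∈ (Ideal.span (Set.range fun a : Fin k =>
          (aeval (MonoidAlgebra.of ℤ (TT k) (tt a)) (b a) : RR k))) • M,
      ∃ y ∈ K ⊓ S.Ker τ, foxU τ y = m := by
    have hNadd : ∀ m₁ m₂ : Fin d → RR k, (∃ y ∈ K ⊓ S.Ker τ, foxU τ y = m₁) →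
        (∃ y ∈ K ⊓ S.Ker τ, foxU τ y = m₂) → ∃ y ∈ K ⊓ S.Ker τ, foxU τ y = m₁ + m₂ := by
      rintro _ _ ⟨l₁, h₁, rfl⟩ ⟨l₂, h₂, rfl⟩
      exact ⟨l₁ * l₂, (K ⊓ S.Ker τ).mul_mem h₁ h₂, CP6_foxU_mul_ker τ (hK h₁.1) l₂⟩
    intro m hm
    refine Submodule.smul_induction_on hm ?_ (fun x y hx hy => hNadd x y hx hy)
    intro r hr
    refine Submodule.span_induction (p := fun r _ => ∀ n ∈ M, ∃ y ∈ K ⊓ S.Ker τ,
      foxU τ y = r • n) ?_ ?_ ?_ ?_ hr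
    · rintro _ ⟨a, rfl⟩ n ⟨l', hl', rfl⟩
      exact hstar a l' hl'
    · intro n _
      exact ⟨1, Subgroup.one_mem _, by rw [zero_smul, hone]⟩
    · intro x y _ _ hx hy n hn
      rw [add_smul]
      exact hNadd _ _ (hx n hn) (hy n hn)
    · intro a x _ hx n hn
      rw [smul_eq_mul, mul_comm, mul_smul]
      exact hx _ (M.smul_mem a hn)
  obtain ⟨y, hy, hyl⟩ := hN _ h1
  have hyL : y ∈ τ.ker := hK hy.1
  have h2 : y⁻¹ * l ∈ ⁅τ.ker, τ.ker⁆ := by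
    refine foxU_ker τ (τ.ker.mul_mem (τ.ker.inv_mem hyL) hl) ?_
    rw [CP6_foxU_mul_ker τ (τ.ker.inv_mem hyL), CP6_foxU_inv_ker τ hyL, hyl, neg_add_cancel]
  have h3 : l = y * (y⁻¹ * l) := by group
  rw [h3]
  exact Subgroup.mul_mem_sup hy h2

end Pool.Agent.CP
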