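import Pool.Agent.Helper29.CP.StepB
import Pool.Agent.Helper29.CP.CP6

/-!
MP_82cbb9_al: the chain of coefficient systems and the cover theorem for nilpotent-by-(free
abelian) groups.
-/

set_option autoImplicit false

namespace Pool.Agent.CP

open Polynomial

instance Ker_normal {k d c : ℕ} (S : Sys k d c) (τ : FreeGroup (Fin d) →* TT k) :
    (S.Ker τ).Normal := inferInstanceAs (S.D τ (c + 1)).Normal

/-- CP-8a -/
theorem exists_sys {k d c : ℕ} (τ : FreeGroup (Fin d) →* TT k)
    (hτ : Function.Surjective τ) (K : Subgroup (FreeGroup (Fin d))) [K.Normal] (hK : K ≤ τ.ker)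
    (hKc : gam τ.ker c ≤ K)
    (g : Fin k → ℤ[X]) (hg : ∀ a, (g a).IsPrimitive)
    (hgK : ∀ a f, τ f = tt a → ∀ l ∈ τ.ker, pw f l (g a) ∈ K ⊔ ⁅τ.ker, τ.ker⁆) :
    ∃ S : Sys k d c, S.Ker τ ≤ K := by
  have key : ∀ m ≤ c, ∃ S : Sys k d c, S.Ker τ ⊓ gam τ.ker (c - m) ≤ K := by
    intro m
    induction m with
    | zero => intro _; exact ⟨Sys.triv k d c, inf_le_right.trans hKc⟩
    | succ m ih =>
      intro hm
      obtain ⟨S', hS'⟩ := ih (by omega)
      have hj : c - m = (c - (m + 1)) + 1 := by omega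
      set j := c - (m + 1) with hjdef
      rw [hj] at hS'
      obtain ⟨E, _, _, _, ρ, ε, hE⟩ := exists_rep_star S' τ hτ K hK g hg hgK
      obtain ⟨SE, hSE⟩ := stepB c ρ ε τ
      obtain ⟨S, hS⟩ := Sys.exists_prod SE S'
      refine ⟨S, ?_⟩
      rintro l ⟨hl, hlj⟩
      have hl' : l ∈ SE.Ker τ ⊓ S'.Ker τ := by rw [← hS τ]; exact hl
      have h1 : l ∈ SE.D τ (j + 2) := SE.D_anti τ (by omega) hl'.1
      have h2 := hSE j (by omega) l hlj h1
      have h3 := stepA τ.ker (foxKer (actE ρ) τ ε) (K ⊓ S'.Ker τ) (fun x hx => hx.1) hE j h2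
      have := gam_normal τ.ker (j + 1)
      have := gam_normal τ.ker j
      obtain ⟨y, hy, z, hz, rfl⟩ := Subgroup.mem_sup_of_normal_right.1 h3
      have hz' : z ∈ K := by
        refine hS' ⟨?_, hz⟩
        have : z = y⁻¹ * (y * z) := by group
        rw [this]
        exact (S'.Ker τ).mul_mem ((S'.Ker τ).inv_mem hy.1.2) hl'.2
      exact K.mul_mem hy.1.1 hz'
  obtain ⟨S, hS⟩ := key c le_rfl
  refine ⟨S, fun l hl => hS ⟨hl, ?_⟩⟩
  rw [Nat.sub_self]
  exact hl.1

/-- from linear equivalences to matrices -/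
theorem exists_GL {F : Type*} [Group F] {V : Type*} [AddCommGroup V] [Module ℚ V]
    [FiniteDimensional ℚ V] (Φ : F →* (V ≃ₗ[ℚ] V)) :
    ∃ (m : ℕ) (ρ : F →* GL (Fin m) ℚ)
      (e : Module.End ℚ V ≃ₐ[ℚ] Matrix (Fin m) (Fin m) ℚ),
      ∀ f, (ρ f).1 = e (Φ f).toLinearMap := by
  let b := Module.finBasis ℚ V
  let e := LinearMap.toMatrixAlgEquiv b
  refine ⟨_, (Units.map (e : Module.End ℚ V →* Matrix _ _ ℚ)).comp
    ((LinearMap.GeneralLinearGroup.generalLinearEquiv ℚ V).symm.toMonoidHom.comp Φ), e, ?_⟩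
  intro f
  rfl

theorem map_pw {G H : Type*} [Group G] [Group H] (φ : G →* H) (f y : G) (p : ℤ[X]) :
    φ (pw f y p) = pw (φ f) (φ y) p := by
  simp only [pw, map_list_prod, List.map_map]
  congr 1
  apply List.map_congr_left
  intro n _
  simp

/-- the faithful unipotent representation of `TT k` on `ℚ × ℚ^k` -/
def unipEquiv (k : ℕ) (t : TT k) : (ℚ × (Fin k → ℚ)) ≃ₗ[ℚ] (ℚ × (Fin k → ℚ)) where
  toFun p := (p.1, fun i => p.2 i + p.1 * (Multiplicative.toAdd t i : ℤ))
  invFun p := (p.1, fun i => p.2 i - p.1 * (Multiplicative.toAdd t i : ℤ))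
  map_add' p q := by
    ext i
    · rfl
    · simp only [Prod.fst_add, Prod.snd_add, Pi.add_apply]; ring
  map_smul' c p := by
    ext i
    · rfl
    · simp only [Prod.smul_fst, Prod.smul_snd, Pi.smul_apply, smul_eq_mul, RingHom.id_apply]; ring
  left_inv p := by ext i <;> simp
  right_inv p := by ext i <;> simp

/-- the representation of `F` on `A × (ℚ × ℚ^k)` -/
noncomputable def bigRep {k d c : ℕ} (S : Sys k d c) (τ : FreeGroup (Fin d) →* TT k) :
    FreeGroup (Fin d) →* ((S.A × (ℚ × (Fin k → ℚ))) ≃ₗ[ℚ] (S.A × (ℚ × (Fin k → ℚ)))) where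
  toFun f := (S.Phi τ f).prodCongr (unipEquiv k (τ f))
  map_one' := by
    apply LinearEquiv.ext
    rintro ⟨a, x, v⟩
    rw [map_one, map_one]
    simp [unipEquiv]
  map_mul' f g := by
    apply LinearEquiv.ext
    rintro ⟨a, x, v⟩
    rw [map_mul, map_mul]
    show _ = ((S.Phi τ f).prodCongr (unipEquiv k (τ f)))
      (((S.Phi τ g).prodCongr (unipEquiv k (τ g))) (a, x, v))
    simp only [LinearEquiv.prodCongr_apply, unipEquiv, LinearEquiv.coe_mk, LinearMap.coe_mk,
      AddHom.coe_mk, toAdd_mul, Pi.add_apply, Int.cast_add]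
    refine Prod.ext rfl (Prod.ext rfl ?_)
    funext i
    simp only
    ring

theorem bigRep_apply {k d c : ℕ} (S : Sys k d c) (τ : FreeGroup (Fin d) →* TT k)
    (f : FreeGroup (Fin d)) (a : S.A) (p : ℚ × (Fin k → ℚ)) :
    bigRep S τ f (a, p) = (S.Phi τ f a, unipEquiv k (τ f) p) := rfl

theorem unipEquiv_eq_one {k : ℕ} {t : TT k} (h : unipEquiv k t = 1) : t = 1 := by
  have h1 := LinearEquiv.congr_fun h ((1 : ℚ), (0 : Fin k → ℚ))
  have h2 := congrArg Prod.snd h1
  apply Multiplicative.toAdd.injective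
  funext i
  have h3 := congrFun h2 i
  simp only [unipEquiv, LinearEquiv.coe_mk, LinearMap.coe_mk, AddHom.coe_mk, Pi.zero_apply,
    one_mul, zero_add, LinearEquiv.coe_one, id_eq] at h3
  simpa using h3

theorem bigRep_ker {k d c : ℕ} (S : Sys k d c) (τ : FreeGroup (Fin d) →* TT k)
    {f : FreeGroup (Fin d)} (h : bigRep S τ f = 1) : f ∈ S.Ker τ := by
  rw [Sys.mem_Ker]
  have h0 : ∀ p, bigRep S τ f p = p := by intro p; rw [h]; rfl
  have h1 : unipEquiv k (τ f) = 1 := by
    apply LinearEquiv.ext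
    intro p
    have := congrArg Prod.snd (h0 (0, p))
    rw [bigRep_apply] at this
    exact this
  have h2 := unipEquiv_eq_one h1
  refine ⟨h2, ?_⟩
  have := congrArg Prod.fst (h0 (1, 0))
  rw [bigRep_apply] at this
  exact this

theorem prod_bigRep {k d c : ℕ} (S : Sys k d c) (τ : FreeGroup (Fin d) →* TT k)
    (l : List (FreeGroup (Fin d))) (hl : ∀ x ∈ l, x ∈ τ.ker) (hne : l ≠ []) :
    ∀ a p, ((l.map fun x => ((bigRep S τ x).toLinearMap : Module.End ℚ _) - 1).prod) (a, p)
      = ((l.map fun x => S.u τ x - 1).prod * a, 0) := by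
  induction l with
  | nil => exact absurd rfl hne
  | cons x l ih =>
    intro a p
    have hx : τ x = 1 := hl x (List.mem_cons_self)
    have h1 : ∀ b q, (((bigRep S τ x).toLinearMap : Module.End ℚ _) - 1) (b, q)
        = ((S.u τ x - 1) * b, 0) := by
      intro b q
      have h2 : (((bigRep S τ x).toLinearMap : Module.End ℚ _) - 1) (b, q)
          = bigRep S τ x (b, q) - (b, q) := rfl
      rw [h2, bigRep_apply, Sys.Phi_apply, hx, Sys.act_one_apply]
      refine Prod.ext ?_ ?_
      · simp [sub_mul]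
      · show unipEquiv k 1 q - q = 0
        refine Prod.ext ?_ ?_
        · simp [unipEquiv]
        · funext i; simp [unipEquiv]
    simp only [List.map_cons, List.prod_cons, Module.End.mul_apply]
    by_cases hl0 : l = []
    · subst hl0
      simp only [List.map_nil, List.prod_nil, mul_one, Module.End.one_apply]
      exact h1 a p
    · rw [ih (fun y hy => hl y (List.mem_cons_of_mem _ hy)) hl0, h1, mul_assoc]

theorem prod_u_mem {k d c : ℕ} (S : Sys k d c) (τ : FreeGroup (Fin d) →* TT k)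
    (l : List (FreeGroup (Fin d))) : (l.map fun x => S.u τ x - 1).prod ∈ S.J ^ l.length := by
  induction l with
  | nil => simp [Submodule.pow_zero, Ideal.one_eq_top]
  | cons x l ih =>
    simp only [List.map_cons, List.prod_cons, List.length_cons]
    rw [Ideal.IsTwoSided.pow_succ]
    exact Ideal.mul_mem_mul (S.u_sub_one_mem τ x) ih

/-- CP-8b -/
theorem cover_of_nilpotent {G : Type} [Group G] [Group.FG G] {k c : ℕ} (tau : G →* TT k)
    (htau : Function.Surjective tau) (hc : gam tau.ker c = ⊥) (g : Fin k → ℤ[X])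
    (hg : ∀ a, (g a).IsPrimitive)
    (hgN : ∀ a t, tau t = tt a → ∀ l ∈ tau.ker, pw t l (g a) ∈ ⁅tau.ker, tau.ker⁆) :
    Cover G := by
  obtain ⟨α, hα, φ, hφ⟩ := Group.fg_iff_exists_freeGroup_hom_surjective_finite.1
    (inferInstance : Group.FG G)
  obtain ⟨d, ⟨eα⟩⟩ := Finite.exists_equiv_fin α
  let π : FreeGroup (Fin d) →* G := φ.comp (FreeGroup.freeGroupCongr eα).symm.toMonoidHom
  have hπ : Function.Surjective π := hφ.comp (FreeGroup.freeGroupCongr eα).symm.surjective
  let τ : FreeGroup (Fin d) →* TT k := tau.comp π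
  have hτ : Function.Surjective τ := htau.comp hπ
  have hK : π.ker ≤ τ.ker := by
    intro x hx
    rw [MonoidHom.mem_ker] at hx ⊢
    show tau (π x) = 1
    rw [hx, map_one]
  have hKc : gam τ.ker c ≤ π.ker := by
    intro x hx
    have h1 := gam_map π τ.ker tau.ker (fun y hy => hy) c hx
    rw [hc] at h1
    exact h1
  have hmap : τ.ker.map π = tau.ker := by
    ext y
    constructor
    · rintro ⟨x, hx, rfl⟩; exact hx
    · intro hy
      obtain ⟨x, rfl⟩ := hπ y
      exact ⟨x, hy, rfl⟩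
  have hgK : ∀ a f, τ f = tt a → ∀ l ∈ τ.ker, pw f l (g a) ∈ π.ker ⊔ ⁅τ.ker, τ.ker⁆ := by
    intro a f hf l hl
    have h1 := hgN a (π f) hf (π l) hl
    rw [← map_pw, ← hmap, ← Subgroup.map_commutator] at h1
    obtain ⟨z, hz, hzz⟩ := h1
    have h2 : pw f l (g a) = (pw f l (g a) * z⁻¹) * z := by group
    rw [h2]
    refine Subgroup.mul_mem_sup ?_ hz
    rw [MonoidHom.mem_ker, map_mul, map_inv, hzz, mul_inv_cancel]
  obtain ⟨S, hS⟩ := exists_sys (c := c) τ hτ π.ker hK hKc g hg hgK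
  obtain ⟨m, ρ, e, hρ⟩ := exists_GL (bigRep S τ)
  refine ⟨d, π, m, ρ, ⊤, hπ, ?_, inferInstance, c + 1, ?_⟩
  · intro f hf
    refine hS (bigRep_ker S τ ?_)
    have h1 : (ρ f).1 = 1 := by rw [(MonoidHom.mem_ker).1 hf]; rfl
    rw [hρ] at h1
    have h2 : ((bigRep S τ f).toLinearMap : Module.End ℚ _) = 1 := by
      apply e.injective
      rw [h1, map_one]
    exact LinearEquiv.toLinearMap_injective h2
  · intro l hl hlm
    have hker : ∀ x ∈ l, x ∈ τ.ker := by
      intro x hx
      have h1 : ⁅(⊤ : Subgroup (FreeGroup (Fin d))), ⊤⁆ ≤ τ.ker := by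
        rw [Subgroup.commutator_le]
        intro a _ b _
        rw [MonoidHom.mem_ker]
        show τ (a * b * a⁻¹ * b⁻¹) = 1
        rw [map_mul, map_mul, map_mul, map_inv, map_inv, mul_comm (τ a) (τ b)]
        group
      exact h1 (hlm x hx)
    have hne : l ≠ [] := by rintro rfl; simp at hl
    have h1 : (l.map fun x => (ρ x).1 - 1)
        = l.map fun x => e (((bigRep S τ x).toLinearMap : Module.End ℚ _) - 1) := by
      apply List.map_congr_left
      intro x _
      rw [hρ, map_sub, map_one]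
    rw [h1]
    have h2 : (l.map fun x => e (((bigRep S τ x).toLinearMap : Module.End ℚ _) - 1)).prod
        = e ((l.map fun x => (((bigRep S τ x).toLinearMap : Module.End ℚ _) - 1)).prod) := by
      rw [map_list_prod, List.map_map]; rfl
    rw [h2]
    have h3 : (l.map fun x => (((bigRep S τ x).toLinearMap : Module.End ℚ _) - 1)).prod = 0 := by
      apply LinearMap.ext
      rintro ⟨a, p⟩
      rw [prod_bigRep S τ l hker hne]
      have h4 := prod_u_mem S τ l
      rw [hl, S.nil] at h4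
      rw [Ideal.mem_bot.1 h4, zero_mul]
      rfl
    rw [h3, map_zero]

end Pool.Agent.CP
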