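import Mathlib

/-!
MP_82cbb9_al: definitions shared by the modules of the cover theorem.
-/

set_option autoImplicit false

namespace Pool.Agent.CP

open Polynomial

/-- the free abelian group of rank `k`, written multiplicatively -/
abbrev TT (k : ℕ) := Multiplicative (Fin k → ℤ)

/-- its `a`-th basis element -/
def tt {k : ℕ} (a : Fin k) : TT k := Multiplicative.ofAdd (Pi.single a 1)

/-- lower central series of a subgroup `L` of `G`; `gam L j` is `γ_{j+1}(L)` -/
def gam {G : Type*} [Group G] (L : Subgroup G) : ℕ → Subgroup G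
  | 0 => L
  | n + 1 => ⁅gam L n, L⁆

/-- `∏ₙ (fⁿ y f⁻ⁿ) ^ (p.coeff n)` -/
def pw {G : Type*} [Group G] (f y : G) (p : ℤ[X]) : G :=
  ((List.range (p.natDegree + 1)).map fun n => (f ^ n * y * (f ^ n)⁻¹) ^ (p.coeff n)).prod

/-- Prüfer rank at most `r` -/
def PruferLE (G : Type*) [Group G] (r : ℕ) : Prop :=
  ∀ H : Subgroup G, H.FG → ∃ s : Finset G, s.card ≤ r ∧ Subgroup.closure (s : Set G) = H

/-- the set `H` acts unipotently through `ρ`, in the strong sense: all products of `c` factors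
`ρ x - 1`, `x ∈ H`, vanish -/
def StrUnip {G : Type*} [Group G] {m : ℕ} (ρ : G →* GL (Fin m) ℚ) (H : Subgroup G) : Prop :=
  ∃ c : ℕ, ∀ l : List G, l.length = c → (∀ x ∈ l, x ∈ H) → (l.map fun x => (ρ x).1 - 1).prod = 0

/-- `G` is a quotient `F / ker π` of a free group of finite rank, and `F` has a representation over
`ℚ` with kernel inside `ker π`, virtually unipotent-by-abelian. -/
def Cover (G : Type) [Group G] : Prop :=
  ∃ (d : ℕ) (π : FreeGroup (Fin d) →* G) (m : ℕ) (ρ : FreeGroup (Fin d) →* GL (Fin m) ℚ)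
    (F0 : Subgroup (FreeGroup (Fin d))),
    Function.Surjective π ∧ ρ.ker ≤ π.ker ∧ F0.FiniteIndex ∧ StrUnip ρ ⁅F0, F0⁆

/-- virtually (strongly) unipotent-by-abelian subgroups of `GL n ℚ` (the interface of Theorem A) -/
def VirtUnipAb {n : ℕ} (G : Subgroup (GL (Fin n) ℚ)) : Prop :=
  ∃ G0 N : Subgroup (GL (Fin n) ℚ), G0 ≤ G ∧ N ≤ G0 ∧ G0.relIndex G ≠ 0 ∧
    (∀ a ∈ G0, ∀ b ∈ G0, a * b * a⁻¹ * b⁻¹ ∈ N) ∧
    ∃ c : ℕ, ∀ l : List (GL (Fin n) ℚ), l.length = c → (∀ x ∈ l, x ∈ N) →
      (l.map fun x => x.1 - 1).prod = 0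

/-! ### Fox derivations -/

section Fox

variable {d k : ℕ} {B : Type*} [AddCommGroup B]

/-- the affine permutation `b ↦ t • b + e` -/
def affPerm (act : TT k →* AddMonoid.End B) (t : TT k) (e : B) : Equiv.Perm B where
  toFun b := act t b + e
  invFun b := act t⁻¹ (b - e)
  left_inv b := by
    have h : (act t⁻¹ * act t) b = b := by rw [← map_mul, inv_mul_cancel, map_one]; rfl
    simpa using h
  right_inv b := by
    have h : (act t * act t⁻¹) (b - e) = b - e := by
      rw [← map_mul, mul_inv_cancel, map_one]; rfl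
    have h' : act t (act t⁻¹ (b - e)) = b - e := h
    simp only [h', sub_add_cancel]

/-- the derivation `F → B` with `x_i ↦ e_i`, `F` acting on `B` through `τ : F → TT k` -/
def fox (act : TT k →* AddMonoid.End B) (τ : FreeGroup (Fin d) →* TT k) (e : Fin d → B)
    (f : FreeGroup (Fin d)) : B :=
  FreeGroup.lift (fun i => affPerm act (τ (FreeGroup.of i)) (e i)) f 0

/-- the group ring of `TT k` -/
abbrev RR (k : ℕ) := MonoidAlgebra ℤ (TT k)

/-- `TT k` acts on `(RR k)^d` -/
noncomputable def actB (k d : ℕ) : TT k →* AddMonoid.End (Fin d → RR k) where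
  toFun t := (Module.toAddMonoidEnd (RR k) (Fin d → RR k)) (MonoidAlgebra.of ℤ (TT k) t)
  map_one' := by rw [map_one, map_one]
  map_mul' a b := by rw [map_mul, map_mul]

/-- the universal Fox derivation `F → (RR k)^d` -/
noncomputable def foxU (τ : FreeGroup (Fin d) →* TT k) (f : FreeGroup (Fin d)) : Fin d → RR k :=
  fox (actB k d) τ (fun i => Pi.single i 1) f

/-- a representation gives an action by additive endomorphisms -/
def actE {E : Type*} [AddCommGroup E] [Module ℚ E] (ρ : TT k →* Module.End ℚ E) :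
    TT k →* AddMonoid.End E where
  toFun t := (ρ t).toAddMonoidHom
  map_one' := by rw [map_one]; rfl
  map_mul' a b := by rw [map_mul]; rfl

/-- `m ↦ ∑ᵢ mᵢ • εᵢ`, the equivariant map `(RR k)^d → E` with `e_i ↦ ε_i` -/
noncomputable def kap {E : Type*} [AddCommGroup E] [Module ℚ E] (ρ : TT k →* Module.End ℚ E)
    (ε : Fin d → E) (m : Fin d → RR k) : E :=
  ∑ i, (MonoidAlgebra.lift ℤ (Module.End ℚ E) (TT k) ρ) (m i) (ε i)

end Fox

/-! ### Coefficient systems -/

/-- a finite dimensional `ℚ`-algebra with a nilpotent ideal, an action of `TT k`, and elements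
`gen i` of the ideal -/
structure Sys (k d c : ℕ) where
  A : Type
  [ring : Ring A]
  [alg : Algebra ℚ A]
  [fin : FiniteDimensional ℚ A]
  J : Ideal A
  [two : J.IsTwoSided]
  nil : J ^ (c + 1) = ⊥
  act : TT k →* (A ≃ₐ[ℚ] A)
  actJ : ∀ t, ∀ x ∈ J, act t x ∈ J
  gen : Fin d → A
  genJ : ∀ i, gen i ∈ J

attribute [instance] Sys.ring Sys.alg Sys.fin Sys.two

namespace Sys

variable {k d c : ℕ} (S : Sys k d c)

theorem isUnit_one_add (i : Fin d) : IsUnit (1 + S.gen i) := by
  have : IsNilpotent (S.gen i) := by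
    refine ⟨c + 1, ?_⟩
    have := Ideal.pow_mem_pow (S.genJ i) (c + 1)
    rw [S.nil] at this
    simpa using this
  exact this.isUnit_one_add

/-- the operator `a ↦ (1 + gen i) * (x̄_i a)` -/
noncomputable def op (τ : FreeGroup (Fin d) →* TT k) (i : Fin d) : S.A ≃ₗ[ℚ] S.A :=
  (S.act (τ (FreeGroup.of i))).toLinearEquiv.trans
    (LinearEquiv.ofBijective (LinearMap.mulLeft ℚ (1 + S.gen i))
      ⟨fun _ _ h => (S.isUnit_one_add i).mul_left_cancel h, fun b => by
        obtain ⟨w, hw⟩ := (S.isUnit_one_add i).exists_right_inv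
        exact ⟨w * b, by simp [← mul_assoc, hw]⟩⟩)

/-- the representation of the free group on `A` -/
noncomputable def Phi (τ : FreeGroup (Fin d) →* TT k) : FreeGroup (Fin d) →* (S.A ≃ₗ[ℚ] S.A) :=
  FreeGroup.lift (S.op τ)

/-- `Phi f a = u f * act (τ f) a` -/
noncomputable def u (τ : FreeGroup (Fin d) →* TT k) (f : FreeGroup (Fin d)) : S.A := S.Phi τ f 1

/-- the trivial system -/
def triv (k d c : ℕ) : Sys k d c where
  A := PUnit
  ring := inferInstance
  alg := inferInstance
  fin := inferInstance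
  J := ⊥
  two := inferInstance
  nil := by rw [eq_bot_iff]; intro x _; exact Subsingleton.elim _ _
  act := 1
  actJ := by intros; exact Subsingleton.elim _ _
  gen := fun _ => 0
  genJ := by intros; exact Subsingleton.elim _ _

end Sys

/-! ### the subgroups `S_j` -/

/-- `SS L Lk j` : `S_{j+1}` of the plan; `Lk` is the kernel of `κδ` -/
def SS {G : Type*} [Group G] (L Lk : Subgroup G) : ℕ → Subgroup G
  | 0 => Lk
  | n + 1 => ⁅SS L Lk n, L⁆ ⊔ ⁅gam L n, Lk⁆

/-- a filtration of length `c` -/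
structure FilMod (c : ℕ) where
  A : Type
  [grp : AddCommGroup A]
  [mod : Module ℚ A]
  Fil : ℕ → Submodule ℚ A
  top : Fil 0 = ⊤
  anti : Antitone Fil
  bot : Fil c = ⊥

attribute [instance] FilMod.grp FilMod.mod

end Pool.Agent.CP
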