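import Pool.Agent.Helper63.ST.ST17
import Pool.Agent.Helper98.CP.ThmA
import Pool.Agent.Helper54.CP.OR2
import Pool.Agent.Helper70.CP.Reduction
import Pool.Agent.Helper29.CP.Chain
import Pool.Agent.Helper74.CP.CP9
import Pool.Agent.Helper39.CJ.RE

/-!
MP_82cbb9_al: the conjugacy problem for finitely presented soluble groups of finite rank.
-/

set_option autoImplicit false

namespace Pool.Agent.CP

open Polynomial Pool.Agent.CQ

/-- every f.g. soluble group of finite Prüfer rank is a quotient of a f.g. linear group over `ℚ`,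
virtually unipotent-by-abelian -/
theorem cover_of_solvable {G : Type} [Group G] [Group.FG G] [Group.IsSolvable G] {r : ℕ}
    (hr : PruferLE G r) : Cover G := by
  obtain ⟨G0, hfi, k, c, tau, g, h1, h2, h3, h4⟩ := structure_theorem hr
  have : Group.FG G0 := Subgroup.fg_of_index_ne_zero G0
  exact cover_of_finiteIndex G0 (cover_of_nilpotent tau h1 h2 g h3 h4)

/-- the matrix entries of a word are computable -/
theorem c_vec {n m : ℕ} (ρ : FreeGroup (Fin n) →* GL (Fin m) ℚ) :
    Computable (fun w : List (Fin n × Bool) => fun i : Fin (m * m) =>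
      (ρ (FreeGroup.mk w)).1 (finProdFinEquiv.symm i).1 (finProdFinEquiv.symm i).2) := by
  let ρ' : FreeGroup (Fin n) →* ((Fin m → ℚ) →ₗ[ℚ] (Fin m → ℚ)) :=
    { toFun := fun g => Matrix.toLinAlgEquiv' (ρ g).1
      map_one' := by rw [map_one]; exact map_one _
      map_mul' := fun a b => by rw [map_mul]; exact map_mul _ _ _ }
  have h1 := c_mat ρ'
  have h2 : ∀ g, LinearMap.toMatrix' (ρ' g) = (ρ g).1 := fun g =>
    LinearMap.toMatrix'_toLin' (ρ g).1
  refine c_pi fun i => ?_
  have h3 := c_entry h1 (finProdFinEquiv.symm i).1 (finProdFinEquiv.symm i).2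
  exact h3.of_eq fun w => by rw [h2]

theorem cp_comp {α β : Type*} [Primcodable α] [Primcodable β] {p : β → Prop}
    (hp : ComputablePred p) {f : α → β} (hf : Computable f) :
    ComputablePred (fun a => p (f a)) := by
  obtain ⟨h1, h2⟩ := ComputablePred.computable_iff_re_compl_re'.1 hp
  exact ComputablePred.computable_iff_re_compl_re'.2 ⟨re_comp h1 hf, re_comp h2 hf⟩

/-- The conjugacy problem is solvable for finitely presented soluble groups of finite rank. -/
theorem main (n : ℕ) (R : Finset (FreeGroup (Fin n)))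
    (hsol : Group.IsSolvable (FreeGroup (Fin n) ⧸ Subgroup.normalClosure (R : Set (FreeGroup (Fin n)))))
    (hrank : ∃ r : ℕ, PruferLE
      (FreeGroup (Fin n) ⧸ Subgroup.normalClosure (R : Set (FreeGroup (Fin n)))) r) :
    ComputablePred (fun p : List (Fin n × Bool) × List (Fin n × Bool) =>
        IsConj
          (QuotientGroup.mk (FreeGroup.mk p.1) :
            FreeGroup (Fin n) ⧸ Subgroup.normalClosure (R : Set (FreeGroup (Fin n))))
          (QuotientGroup.mk (FreeGroup.mk p.2) :
            FreeGroup (Fin n) ⧸ Subgroup.normalClosure (R : Set (FreeGroup (Fin n))))) := by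
  set N := Subgroup.normalClosure (R : Set (FreeGroup (Fin n))) with hN
  obtain ⟨r, hr⟩ := hrank
  have hfp : Group.IsFinitelyPresented (FreeGroup (Fin n) ⧸ N) :=
    Group.IsFinitelyPresented.quotient N ⟨R, R.finite_toSet, rfl⟩
  have hcov : Cover (FreeGroup (Fin n) ⧸ N) := cover_of_solvable hr
  obtain ⟨d, π, m, ρ, Γ, hπ, hfg, hvu, hconj⟩ := reduction hcov
  choose b hb using fun i : Fin n => hπ (QuotientGroup.mk (FreeGroup.of i) : FreeGroup (Fin n) ⧸ N)
  let β : FreeGroup (Fin n) →* FreeGroup (Fin d) := FreeGroup.lift b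
  have hβ : π.comp β = QuotientGroup.mk' N := by
    ext i
    simp [β, hb]
  have hβ' : ∀ w, (QuotientGroup.mk (FreeGroup.mk w) : FreeGroup (Fin n) ⧸ N)
      = π (β (FreeGroup.mk w)) := fun w => (DFunLike.congr_fun hβ (FreeGroup.mk w)).symm
  have hA := theoremA Γ hfg hvu
  have hf : Computable (fun p : List (Fin n × Bool) × List (Fin n × Bool) =>
      ((fun i : Fin (m * m) => ((ρ.comp β) (FreeGroup.mk p.1)).1 (finProdFinEquiv.symm i).1
          (finProdFinEquiv.symm i).2),
        (fun i : Fin (m * m) => ((ρ.comp β) (FreeGroup.mk p.2)).1 (finProdFinEquiv.symm i).1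
          (finProdFinEquiv.symm i).2))) :=
    ((c_vec (ρ.comp β)).comp Computable.fst).pair ((c_vec (ρ.comp β)).comp Computable.snd)
  refine ComputablePred.of_eq (cp_comp hA hf) ?_
  intro p
  rw [hβ' p.1, hβ' p.2, hconj]
  rfl

end Pool.Agent.CP
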