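import Pool.Agent.Helper93.CP.MagnusWitt
import Pool.Agent.Helper81.CP.CP3c

/-!
MP_82cbb9_al: CP-3c without hypothesis.
-/

set_option autoImplicit false

namespace Pool.Agent.CP

/-- CP-3c -/
theorem mem_gam_of_acts (q j : ℕ) (σ : FreeGroup (Fin q))
    (hσ : ∀ (M : FilMod (j + 2)) (φ : FreeGroup (Fin q) →* (M.A ≃ₗ[ℚ] M.A)),
      (∀ x i, ∀ a ∈ M.Fil i, φ (FreeGroup.of x) a - a ∈ M.Fil (i + 1)) → φ σ = 1) :
    σ ∈ gam (⊤ : Subgroup (FreeGroup (Fin q))) (j + 1) :=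
  cp3_mem_gam_of_acts magnus_witt q j σ hσ

end Pool.Agent.CP
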