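import Pool.Agent.Helper29.CP.Gam
import Pool.Agent.Helper66.CP.SysLemmas
import Pool.Agent.Helper16.CP.TensorSys

/-!
MP_82cbb9_al: Step B of the cover theorem.
-/

set_option autoImplicit false

namespace Pool.Agent.CP

open Polynomial

/-! ### unit groups of filtered rings -/

/-- a ring with a filtration by two-sided ideals -/
structure FilRing (A : Type*) [Ring A] where
  I : ℕ → Ideal A
  two : ∀ i, (I i).IsTwoSided
  mul : ∀ i j, ∀ x ∈ I i, ∀ y ∈ I j, x * y ∈ I (i + j)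

namespace FilRing

variable {A : Type*} [Ring A] (R : FilRing A)

/-- `P i = {g | g - 1 ∈ I i}` -/
def P (i : ℕ) : Subgroup Aˣ where
  carrier := {g | (g : A) - 1 ∈ R.I i}
  one_mem' := by simp
  mul_mem' {a b} ha hb := by
    have : ((a * b : Aˣ) : A) - 1 = (a : A) * ((b : A) - 1) + ((a : A) - 1) := by
      push_cast; noncomm_ring
    show ((a * b : Aˣ) : A) - 1 ∈ R.I i
    rw [this]
    exact Ideal.add_mem _ (Ideal.mul_mem_left _ _ hb) ha
  inv_mem' {a} ha := by
    have : ((a⁻¹ : Aˣ) : A) - 1 = - (((a⁻¹ : Aˣ) : A) * ((a : A) - 1)) := by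
      rw [mul_sub, Units.inv_mul]; noncomm_ring
    show ((a⁻¹ : Aˣ) : A) - 1 ∈ R.I i
    rw [this]
    exact (Ideal.neg_mem_iff _).2 (Ideal.mul_mem_left _ _ ha)

theorem mem_P {i : ℕ} {g : Aˣ} : g ∈ R.P i ↔ (g : A) - 1 ∈ R.I i := Iff.rfl

instance (i : ℕ) : (R.P i).Normal := ⟨fun a ha g => by
  have := R.two i
  have h : ((g * a * g⁻¹ : Aˣ) : A) - 1 = (g : A) * ((a : A) - 1) * ((g⁻¹ : Aˣ) : A) := by
    push_cast
    rw [mul_sub, sub_mul, mul_one, Units.mul_inv]
  show ((g * a * g⁻¹ : Aˣ) : A) - 1 ∈ R.I i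
  rw [h]
  exact Ideal.mul_mem_right _ _ (Ideal.mul_mem_left _ _ ha)⟩

theorem P_comm (i j : ℕ) : ⁅R.P i, R.P j⁆ ≤ R.P (i + j) := by
  rw [Subgroup.commutator_le]
  intro a ha b hb
  have := R.two (i + j)
  have h : ((a * b * a⁻¹ * b⁻¹ : Aˣ) : A) - 1
      = (((a : A) - 1) * ((b : A) - 1) - ((b : A) - 1) * ((a : A) - 1))
        * (((a⁻¹ : Aˣ) : A) * ((b⁻¹ : Aˣ) : A)) := by
    have h1 : (((a : A) - 1) * ((b : A) - 1) - ((b : A) - 1) * ((a : A) - 1))
        = (a : A) * b - b * a := by noncomm_ring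
    rw [h1, sub_mul]
    have h2 : (b : A) * a * (((a⁻¹ : Aˣ) : A) * ((b⁻¹ : Aˣ) : A)) = 1 := by
      rw [← mul_assoc, mul_assoc (b : A) a, Units.mul_inv, mul_one, Units.mul_inv]
    rw [h2]
    push_cast
    noncomm_ring
  show ((a * b * a⁻¹ * b⁻¹ : Aˣ) : A) - 1 ∈ R.I (i + j)
  rw [h]
  refine Ideal.mul_mem_right _ _ (Ideal.sub_mem _ (R.mul i j _ ha _ hb) ?_)
  rw [add_comm i j]
  exact R.mul j i _ hb _ ha

theorem gam_le_P (n : ℕ) : gam (R.P 1) n ≤ R.P (n + 1) := by
  induction n with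
  | zero => exact le_rfl
  | succ n ih =>
    show ⁅gam (R.P 1) n, R.P 1⁆ ≤ _
    exact (Subgroup.commutator_mono ih le_rfl).trans (R.P_comm (n + 1) 1)

theorem SS_le_P (n : ℕ) : SS (R.P 1) (R.P 2) n ≤ R.P (n + 2) := by
  induction n with
  | zero => exact le_rfl
  | succ n ih =>
    show ⁅SS (R.P 1) (R.P 2) n, R.P 1⁆ ⊔ ⁅gam (R.P 1) n, R.P 2⁆ ≤ _
    refine sup_le ?_ ?_
    · exact (Subgroup.commutator_mono ih le_rfl).trans (R.P_comm (n + 2) 1)
    · exact (Subgroup.commutator_mono (R.gam_le_P n) le_rfl).trans (R.P_comm (n + 1) 2)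

end FilRing

/-! ### the ring of filtered operators of a `FilMod` -/

namespace FilMod

variable {n : ℕ} (M : FilMod n)

/-- operators preserving the filtration -/
def opRing : Subring (Module.End ℚ M.A) where
  carrier := {T | ∀ i, ∀ a ∈ M.Fil i, T a ∈ M.Fil i}
  one_mem' := fun i a ha => by simpa using ha
  zero_mem' := fun i a ha => by simp
  mul_mem' {S T} hS hT := fun i a ha => hS i _ (hT i a ha)
  add_mem' {S T} hS hT := fun i a ha => (M.Fil i).add_mem (hS i a ha) (hT i a ha)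
  neg_mem' {T} hT := fun i a ha => (M.Fil i).neg_mem (hT i a ha)

/-- operators raising the filtration by `r` -/
def opIdeal (r : ℕ) : Ideal M.opRing where
  carrier := {T | ∀ i, ∀ a ∈ M.Fil i, T.1 a ∈ M.Fil (i + r)}
  zero_mem' := fun i a ha => by simp
  add_mem' {S T} hS hT := fun i a ha => (M.Fil _).add_mem (hS i a ha) (hT i a ha)
  smul_mem' S {T} hT := fun i a ha => S.2 _ _ (hT i a ha)

theorem mem_opIdeal {r : ℕ} {T : M.opRing} :
    T ∈ M.opIdeal r ↔ ∀ i, ∀ a ∈ M.Fil i, T.1 a ∈ M.Fil (i + r) := Iff.rfl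

/-- the filtered ring of operators -/
def opFil : FilRing M.opRing where
  I := M.opIdeal
  two := fun r => ⟨fun {T} S hT => fun i a ha => hT i _ (S.2 i a ha)⟩
  mul := fun r s x hx y hy => fun i a ha => by
    have h1 := hy i a ha
    have h2 := hx _ _ h1
    have : i + s + r = i + (r + s) := by omega
    rw [← this]; exact h2

theorem opIdeal_top {r : ℕ} (hr : n ≤ r) {T : M.opRing} (hT : T ∈ M.opIdeal r) : T = 0 := by
  apply Subtype.ext
  apply LinearMap.ext
  intro a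
  have h := hT 0 a (by rw [M.top]; trivial)
  have h2 : M.Fil (0 + r) ≤ M.Fil n := M.anti (by omega)
  have h3 := h2 h
  rw [M.bot] at h3
  simpa using h3

end FilMod

/-! ### degree one part -/

section deg1

variable {k d c : ℕ} {E : Type} [AddCommGroup E] [Module ℚ E]

theorem u_deg_one (S : Sys k d c) (ρ : TT k →* Module.End ℚ E) (ε : Fin d → E)
    (τ : FreeGroup (Fin d) →* TT k) (ι : E →ₗ[ℚ] S.A) (hJ : ∀ e, ι e ∈ S.J)
    (hgen : ∀ i, S.gen i = ι (ε i)) (hact : ∀ t e, S.act t (ι e) = ι (ρ t e))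
    (f : FreeGroup (Fin d)) :
    S.u τ f - 1 - ι (fox (actE ρ) τ ε f) ∈ S.J ^ 2 := by
  have hmul : ∀ f g : FreeGroup (Fin d), S.u τ f - 1 - ι (fox (actE ρ) τ ε f) ∈ S.J ^ 2 →
      (S.u τ (f * g) - 1 - ι (fox (actE ρ) τ ε (f * g)) ∈ S.J ^ 2 ↔
        S.u τ g - 1 - ι (fox (actE ρ) τ ε g) ∈ S.J ^ 2) := by
    intro f g hf
    have h1 : ι (fox (actE ρ) τ ε (f * g))
        = S.act (τ f) (ι (fox (actE ρ) τ ε g)) + ι (fox (actE ρ) τ ε f) := by
      rw [fox_mul, map_add, hact]; rfl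
    have h2 : S.u τ (f * g) - 1 - ι (fox (actE ρ) τ ε (f * g))
        = (S.u τ f - 1 - ι (fox (actE ρ) τ ε f))
          + (S.u τ f - 1) * (S.act (τ f) (S.u τ g - 1))
          + S.act (τ f) (S.u τ g - 1 - ι (fox (actE ρ) τ ε g)) := by
      have h0 : S.act (τ f) (S.u τ g - 1) = S.act (τ f) (S.u τ g) - 1 := by
        rw [map_sub, map_one]
      rw [h1, Sys.u_mul, map_sub (S.act (τ f)) (S.u τ g - 1), h0]
      noncomm_ring
    have h3 : (S.u τ f - 1) * (S.act (τ f) (S.u τ g - 1)) ∈ S.J ^ 2 := by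
      rw [Ideal.IsTwoSided.pow_succ, Submodule.pow_one]
      exact Ideal.mul_mem_mul (S.u_sub_one_mem τ f) (S.actJ _ _ (S.u_sub_one_mem τ g))
    constructor
    · intro h
      rw [h2] at h
      have h4 : S.act (τ f) (S.u τ g - 1 - ι (fox (actE ρ) τ ε g)) ∈ S.J ^ 2 :=
        (Ideal.add_mem_iff_right _ (Ideal.add_mem _ hf h3)).1 h
      have h5 := S.actJ_pow (τ f)⁻¹ 2 h4
      rwa [← Sys.act_mul_apply, inv_mul_cancel, Sys.act_one_apply] at h5
    · intro h
      rw [h2]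
      exact Ideal.add_mem _ (Ideal.add_mem _ hf h3) (S.actJ_pow _ _ h)
  induction f using FreeGroup.induction_on with
  | C1 => simp
  | of i => rw [Sys.u_of, fox_of, hgen]; simp
  | inv_of i hi =>
    refine (hmul (FreeGroup.of i) (FreeGroup.of i)⁻¹ hi).1 ?_
    rw [mul_inv_cancel]; simp
  | mul x y hx hy => exact (hmul x y hx).2 hy

theorem foxKer_le_D (S : Sys k d c) (ρ : TT k →* Module.End ℚ E) (ε : Fin d → E)
    (τ : FreeGroup (Fin d) →* TT k) (ι : E →ₗ[ℚ] S.A) (hJ : ∀ e, ι e ∈ S.J)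
    (hgen : ∀ i, S.gen i = ι (ε i)) (hact : ∀ t e, S.act t (ι e) = ι (ρ t e)) :
    foxKer (actE ρ) τ ε ≤ S.D τ 2 := by
  intro l hl
  refine ⟨hl.1, ?_⟩
  have h := u_deg_one S ρ ε τ ι hJ hgen hact l
  rwa [hl.2, map_zero, sub_zero] at h

theorem SS_le_D (S : Sys k d c) (τ : FreeGroup (Fin d) →* TT k)
    (Lk : Subgroup (FreeGroup (Fin d))) (h : Lk ≤ S.D τ 2) (n : ℕ) :
    SS τ.ker Lk n ≤ S.D τ (n + 2) := by
  have h1 : τ.ker ≤ S.D τ 1 := by
    have := S.gam_le_D τ 0
    exact this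
  induction n with
  | zero => exact h
  | succ n ih =>
    show ⁅SS τ.ker Lk n, τ.ker⁆ ⊔ ⁅gam τ.ker n, Lk⁆ ≤ _
    refine sup_le ?_ ?_
    · exact (Subgroup.commutator_mono ih h1).trans (S.D_comm τ (n + 2) 1)
    · exact (Subgroup.commutator_mono (S.gam_le_D τ n) h).trans (S.D_comm τ (n + 1) 2)

end deg1

/-! ### lifts of a basis -/

/-- Let `δ : L → E` be a homomorphism to a `ℚ`-vector space with kernel `Lk`.  Every homomorphism
from a free group of finite rank to `L` factors, modulo `Lk`, through one whose generators have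
`ℚ`-linearly independent images. -/
theorem exists_indep_lift {F : Type*} [Group F] (L Lk : Subgroup F) [Lk.Normal]
    {E : Type*} [AddCommGroup E] [Module ℚ E] (δ : F → E)
    (hδ : ∀ x ∈ L, ∀ y ∈ L, δ (x * y) = δ x + δ y)
    (hk : ∀ x, x ∈ Lk ↔ x ∈ L ∧ δ x = 0) {n : ℕ} (η : FreeGroup (Fin n) →* F)
    (hη : ∀ x, η x ∈ L) :
    ∃ (q : ℕ) (θ : FreeGroup (Fin q) →* F) (φ : FreeGroup (Fin n) →* FreeGroup (Fin q)),
      (∀ x, θ x ∈ L) ∧ (∀ x, η x * (θ (φ x))⁻¹ ∈ Lk) ∧
      LinearIndependent ℚ (fun r => δ (θ (FreeGroup.of r))) := by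
  classical
  -- the additive homomorphism
  have h1 : δ 1 = 0 := by
    have := hδ 1 L.one_mem 1 L.one_mem
    rw [mul_one] at this
    simpa using this
  have hinv : ∀ x ∈ L, δ x⁻¹ = - δ x := by
    intro x hx
    have := hδ x hx x⁻¹ (L.inv_mem hx)
    rw [mul_inv_cancel, h1] at this
    exact eq_neg_of_add_eq_zero_right this.symm
  have hzpow : ∀ x ∈ L, ∀ m : ℤ, δ (x ^ m) = m • δ x := by
    intro x hx
    have hn : ∀ m : ℕ, δ (x ^ m) = (m : ℤ) • δ x := by
      intro m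
      induction m with
      | zero => simp [h1]
      | succ m ih =>
        rw [pow_succ, hδ _ (L.pow_mem hx m) _ hx, ih]; push_cast; rw [add_smul, one_smul]
    intro m
    obtain ⟨m, rfl | rfl⟩ := m.eq_nat_or_neg
    · rw [zpow_natCast]; exact hn m
    · rw [zpow_neg, zpow_natCast, hinv _ (L.pow_mem hx m), hn m, neg_smul]
  let δh : Additive L →+ E :=
    { toFun := fun x => δ (Additive.toMul x).1
      map_zero' := h1
      map_add' := fun x y => hδ _ (Additive.toMul x).2 _ (Additive.toMul y).2 }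
  let V : Submodule ℤ E := Submodule.span ℤ (Set.range fun i : Fin n => δ (η (FreeGroup.of i)))
  have hVfg : V.FG := Submodule.fg_span (Set.finite_range _)
  have : Module.Finite ℤ V := Module.Finite.iff_fg.2 hVfg
  have : IsAddTorsionFree E := .of_module_rat E
  have : Module.IsTorsionFree ℤ V := inferInstance
  have : Module.Free ℤ V := inferInstance
  let q := Module.finrank ℤ V
  let b : Module.Basis (Fin q) ℤ V := Module.finBasis ℤ V
  -- lifts
  have hV : ∀ v ∈ V, ∃ x ∈ L, δ x = v := by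
    intro v hv
    have : V ≤ (AddMonoidHom.range δh).toIntSubmodule := by
      rw [Submodule.span_le]
      rintro _ ⟨i, rfl⟩
      exact ⟨Additive.ofMul ⟨η (FreeGroup.of i), hη _⟩, rfl⟩
    obtain ⟨x, hx⟩ := this hv
    exact ⟨(Additive.toMul x).1, (Additive.toMul x).2, hx⟩
  choose lam hlamL hlam using fun r : Fin q => hV (b r).1 (b r).2
  let θ : FreeGroup (Fin q) →* F := FreeGroup.lift lam
  have hθL : ∀ x, θ x ∈ L := by
    intro x
    induction x using FreeGroup.induction_on with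
    | C1 => simp [L.one_mem]
    | of i => simpa [θ] using hlamL i
    | inv_of i _ => simpa [θ] using L.inv_mem (hlamL i)
    | mul x y hx hy => rw [map_mul]; exact L.mul_mem hx hy
  have hlist : ∀ (l : List (Fin q)) (m : Fin q → ℤ),
      δ (θ (l.map fun r => FreeGroup.of r ^ m r).prod) = (l.map fun r => m r • δ (lam r)).sum := by
    intro l m
    induction l with
    | nil => simp [h1]
    | cons a l ih =>
      simp only [List.map_cons, List.prod_cons, List.sum_cons, map_mul]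
      rw [hδ _ (hθL _) _ (hθL _), ih, map_zpow, hzpow _ (hθL _)]
      simp [θ]
  let w : Fin n → V := fun i => ⟨δ (η (FreeGroup.of i)), Submodule.subset_span ⟨i, rfl⟩⟩
  let φ : FreeGroup (Fin n) →* FreeGroup (Fin q) := FreeGroup.lift fun i =>
    ((List.finRange q).map fun r => FreeGroup.of r ^ (b.repr (w i) r)).prod
  refine ⟨q, θ, φ, hθL, ?_, ?_⟩
  · -- equality modulo `Lk` on generators
    have hgen : ∀ i, (QuotientGroup.mk' Lk).comp η (FreeGroup.of i)
        = ((QuotientGroup.mk' Lk).comp (θ.comp φ)) (FreeGroup.of i) := by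
      intro i
      simp only [MonoidHom.comp_apply, QuotientGroup.mk'_apply]
      rw [eq_comm, QuotientGroup.eq]
      rw [hk]
      refine ⟨L.mul_mem (L.inv_mem (hθL _)) (hη _), ?_⟩
      rw [hδ _ (L.inv_mem (hθL _)) _ (hη _), hinv _ (hθL _)]
      have : δ (θ (φ (FreeGroup.of i))) = δ (η (FreeGroup.of i)) := by
        simp only [φ, FreeGroup.lift_apply_of]
        rw [hlist]
        have h2 : ((List.finRange q).map fun r => b.repr (w i) r • δ (lam r)).sum
            = ∑ r, b.repr (w i) r • δ (lam r) := by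
          rw [← List.ofFn_eq_map, List.sum_ofFn]
        rw [h2]
        have h3 := congrArg (fun v : V => (v : E)) (b.sum_repr (w i))
        simp only [Submodule.coe_sum, Submodule.coe_smul] at h3
        simp only [hlam]
        exact h3
      rw [this]; abel
    have hall : (QuotientGroup.mk' Lk).comp η = (QuotientGroup.mk' Lk).comp (θ.comp φ) :=
      FreeGroup.ext_hom _ _ hgen
    intro x
    have := DFunLike.congr_fun hall x
    simp only [MonoidHom.comp_apply, QuotientGroup.mk'_apply] at this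
    rw [eq_comm, QuotientGroup.eq] at this
    have h2 := (inferInstance : Lk.Normal).conj_mem _ this (θ (φ x))
    simpa [mul_assoc] using h2
  · have hb : LinearIndependent ℤ (fun r => ((b r : V) : E)) :=
      b.linearIndependent.map' V.subtype (Submodule.ker_subtype V)
    have hb' : LinearIndependent ℚ (fun r => ((b r : V) : E)) :=
      (LinearIndependent.iff_fractionRing ℤ ℚ).1 hb
    convert hb' using 2 with r
    simp [θ, hlam]

/-! ### Step B -/

theorem gam_map {G H : Type*} [Group G] [Group H] (f : H →* G) (L' : Subgroup H) (L : Subgroup G)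
    (hf : ∀ x ∈ L', f x ∈ L) (j : ℕ) {x : H} (hx : x ∈ gam L' j) : f x ∈ gam L j := by
  have h : ∀ j, (gam L' j).map f ≤ gam L j := by
    intro j
    induction j with
    | zero =>
      rintro _ ⟨x, hx, rfl⟩
      exact hf x hx
    | succ j ih =>
      show (⁅gam L' j, L'⁆).map f ≤ ⁅gam L j, L⁆
      rw [Subgroup.map_commutator]
      refine Subgroup.commutator_mono ih ?_
      rintro _ ⟨x, hx, rfl⟩
      exact hf x hx
  exact h j ⟨x, hx, rfl⟩

theorem gam_succ_le_SS {G : Type*} [Group G] (L Lk : Subgroup G) (h : ⁅L, L⁆ ≤ Lk) (j : ℕ) :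
    gam L (j + 1) ≤ SS L Lk j := by
  induction j with
  | zero => exact h
  | succ j ih =>
    show ⁅gam L (j + 1), L⁆ ≤ ⁅SS L Lk j, L⁆ ⊔ ⁅gam L j, Lk⁆
    exact (Subgroup.commutator_mono ih le_rfl).trans le_sup_left

namespace FilMod

variable {n : ℕ} (M : FilMod n)

theorem raise_all {X : Type*} (φ : FreeGroup X →* (M.A ≃ₗ[ℚ] M.A))
    (h : ∀ x i, ∀ a ∈ M.Fil i, φ (FreeGroup.of x) a - a ∈ M.Fil (i + 1)) (g : FreeGroup X) :
    ∀ i, ∀ a ∈ M.Fil i, φ g a - a ∈ M.Fil (i + 1) := by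
  induction g using FreeGroup.induction_on with
  | C1 => intro i a _; simp
  | of x => exact h x
  | inv_of x _ =>
    -- descending induction
    have key : ∀ m i, n ≤ i + m → ∀ a ∈ M.Fil i, φ (FreeGroup.of x)⁻¹ a - a ∈ M.Fil (i + 1) := by
      intro m
      induction m with
      | zero =>
        intro i hi a ha
        have : a = 0 := by
          have h1 := M.anti (show n ≤ i by omega) ha
          rw [M.bot] at h1; simpa using h1
        rw [this]; simp
      | succ m ih =>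
        intro i hi a ha
        have h1 := h x i a ha
        have h2 := ih (i + 1) (by omega) _ h1
        have h3 : φ (FreeGroup.of x)⁻¹ (φ (FreeGroup.of x) a) = a := by
          have : φ (FreeGroup.of x)⁻¹ (φ (FreeGroup.of x) a)
              = (φ (FreeGroup.of x)⁻¹ * φ (FreeGroup.of x)) a := rfl
          rw [this, ← map_mul, inv_mul_cancel, map_one]; rfl
        have h4 : φ (FreeGroup.of x)⁻¹ a - a
            = - ((φ (FreeGroup.of x)⁻¹ (φ (FreeGroup.of x) a - a)
                - (φ (FreeGroup.of x) a - a)) + (φ (FreeGroup.of x) a - a)) := by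
          rw [map_sub, h3]; abel
        rw [h4]
        exact (M.Fil _).neg_mem ((M.Fil _).add_mem (M.anti (by omega) h2) h1)
    intro i a ha
    exact key n i (by omega) a ha
  | mul x y hx hy =>
    intro i a ha
    have h1 : φ (x * y) a = φ x (φ y a) := by rw [map_mul]; rfl
    have h2 := hy i a ha
    have h3 : φ y a ∈ M.Fil i := by
      have : φ y a = (φ y a - a) + a := by abel
      rw [this]
      exact (M.Fil i).add_mem (M.anti (by omega) h2) ha
    have h4 := hx i _ h3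
    have h5 : φ (x * y) a - a = (φ x (φ y a) - φ y a) + (φ y a - a) := by rw [h1]; abel
    rw [h5]
    exact (M.Fil _).add_mem h4 h2

end FilMod

theorem units_eq_of_P {n : ℕ} (M : FilMod n) {g h : (M.opRing)ˣ}
    (H : g * h⁻¹ ∈ M.opFil.P n) : g = h := by
  have h1 : ((g * h⁻¹ : (M.opRing)ˣ) : M.opRing) - 1 = 0 :=
    M.opIdeal_top (le_refl n) H
  have h2 : (g * h⁻¹ : (M.opRing)ˣ) = 1 := Units.ext (sub_eq_zero.1 h1)
  exact mul_inv_eq_one.1 h2

/-- agreement modulo a normal subgroup can be checked on generators -/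
theorem agree_of_generators {X G : Type*} [Group G] (N : Subgroup G) [N.Normal]
    (η θ : FreeGroup X →* G)
    (h : ∀ x, η (FreeGroup.of x) * (θ (FreeGroup.of x))⁻¹ ∈ N) (x : FreeGroup X) :
    η x * (θ x)⁻¹ ∈ N := by
  have conv : ∀ a b : G, a * b⁻¹ ∈ N ↔ (QuotientGroup.mk' N) a = (QuotientGroup.mk' N) b := by
    intro a b
    rw [QuotientGroup.mk'_apply, QuotientGroup.mk'_apply, eq_comm, QuotientGroup.eq]
    constructor
    · intro h1
      have := (inferInstance : N.Normal).conj_mem _ h1 b⁻¹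
      simpa [mul_assoc] using this
    · intro h1
      have := (inferInstance : N.Normal).conj_mem _ h1 b
      simpa [mul_assoc] using this
  have hall : (QuotientGroup.mk' N).comp η = (QuotientGroup.mk' N).comp θ :=
    FreeGroup.ext_hom _ _ fun i => (conv _ _).1 (h i)
  exact (conv _ _).2 (DFunLike.congr_fun hall x)

theorem stepB_acts {k d c : ℕ} {E : Type} [AddCommGroup E] [Module ℚ E]
    (ρ : TT k →* Module.End ℚ E) (ε : Fin d → E) (τ : FreeGroup (Fin d) →* TT k)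
    (S : Sys k d c) (ι : E →ₗ[ℚ] S.A) (hJ : ∀ e, ι e ∈ S.J)
    (hgen : ∀ i, S.gen i = ι (ε i)) (hact : ∀ t e, S.act t (ι e) = ι (ρ t e))
    {q j : ℕ} (θ : FreeGroup (Fin q) →* FreeGroup (Fin d)) (hθ : ∀ x, θ x ∈ τ.ker)
    (hind : LinearIndependent ℚ (fun r => fox (actE ρ) τ ε (θ (FreeGroup.of r))))
    (M : FilMod (j + 2))
    (huniv : ∀ φ : E →ₗ[ℚ] Module.End ℚ M.A,
        (∀ e i, ∀ a ∈ M.Fil i, φ e a ∈ M.Fil (i + 1)) →
        ∃ Ψ : S.A →ₐ[ℚ] Module.End ℚ M.A, (∀ e, Ψ (ι e) = φ e) ∧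
          ∀ r, ∀ x ∈ S.J ^ r, ∀ i, ∀ a ∈ M.Fil i, Ψ x a ∈ M.Fil (i + r))
    {σ : FreeGroup (Fin q)} (hσ : σ ∈ gam (⊤ : Subgroup (FreeGroup (Fin q))) j)
    (hσD : θ σ ∈ S.D τ (j + 2))
    (φM : FreeGroup (Fin q) →* (M.A ≃ₗ[ℚ] M.A))
    (hraise : ∀ x i, ∀ a ∈ M.Fil i, φM (FreeGroup.of x) a - a ∈ M.Fil (i + 1)) :
    φM σ = 1 := by
  classical
  set v : Fin q → E := fun r => fox (actE ρ) τ ε (θ (FreeGroup.of r)) with hv
  let T : Fin q → Module.End ℚ M.A := fun r => (φM (FreeGroup.of r)).toLinearMap - 1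
  obtain ⟨g, hg⟩ := LinearMap.exists_leftInverse_of_injective
    (Finsupp.linearCombination ℚ v) (LinearMap.ker_eq_bot.2 hind)
  have hgv : ∀ r, g (v r) = Finsupp.single r 1 := by
    intro r
    have := LinearMap.congr_fun hg (Finsupp.single r 1)
    simpa using this
  let Λ : E →ₗ[ℚ] Module.End ℚ M.A := (Finsupp.linearCombination ℚ T).comp g
  have hΛv : ∀ r, Λ (v r) = T r := by
    intro r
    simp [Λ, hgv]
  have hT : ∀ r i, ∀ a ∈ M.Fil i, T r a ∈ M.Fil (i + 1) := fun r i a ha => hraise r i a ha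
  have hΛ : ∀ e i, ∀ a ∈ M.Fil i, Λ e a ∈ M.Fil (i + 1) := by
    intro e i a ha
    simp only [Λ, LinearMap.comp_apply, Finsupp.linearCombination_apply, Finsupp.sum,
      LinearMap.sum_apply, LinearMap.smul_apply]
    exact Submodule.sum_mem _ fun r _ => Submodule.smul_mem _ _ (hT r i a ha)
  obtain ⟨Ψ, hΨ1, hΨ2⟩ := huniv Λ hΛ
  have hΨpres : ∀ x : S.A, ∀ i, ∀ a ∈ M.Fil i, Ψ x a ∈ M.Fil i := by
    intro x i a ha
    have := hΨ2 0 x (by rw [Submodule.pow_zero, Ideal.one_eq_top]; trivial) i a ha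
    simpa using this
  have hall := M.raise_all φM hraise
  have hpres : ∀ x, ∀ i, ∀ a ∈ M.Fil i, φM x a ∈ M.Fil i := by
    intro x i a ha
    have h1 : φM x a = (φM x a - a) + a := by abel
    rw [h1]
    exact (M.Fil i).add_mem (M.anti (by omega) (hall x i a ha)) ha
  let f1 : FreeGroup (Fin q) →* M.opRing :=
    { toFun := fun x => ⟨Ψ (S.u τ (θ x)), fun i a ha => hΨpres _ i a ha⟩
      map_one' := by apply Subtype.ext; simp
      map_mul' := fun x y => by
        apply Subtype.ext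
        show Ψ (S.u τ (θ (x * y))) = Ψ (S.u τ (θ x)) * Ψ (S.u τ (θ y))
        rw [map_mul θ, Sys.u_mul_ker S τ (hθ x), map_mul] }
  let f2 : FreeGroup (Fin q) →* M.opRing :=
    { toFun := fun x => ⟨(φM x).toLinearMap, fun i a ha => hpres x i a ha⟩
      map_one' := by
        apply Subtype.ext
        show ((φM 1).toLinearMap : Module.End ℚ M.A) = 1
        rw [map_one]; rfl
      map_mul' := fun x y => by
        apply Subtype.ext
        show ((φM (x * y)).toLinearMap : Module.End ℚ M.A)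
          = (φM x).toLinearMap * (φM y).toLinearMap
        rw [map_mul]; rfl }
  let F1 := f1.toHomUnits
  let F2 := f2.toHomUnits
  have hF1 : ∀ x, ((F1 x : (M.opRing)ˣ) : M.opRing) = f1 x := fun x => rfl
  have hF2 : ∀ x, ((F2 x : (M.opRing)ˣ) : M.opRing) = f2 x := fun x => rfl
  have h1 : ∀ x, F1 x ∈ M.opFil.P 1 := by
    intro x
    rw [FilRing.mem_P, hF1]
    show f1 x - 1 ∈ M.opIdeal 1
    intro i a ha
    have h2 := hΨ2 1 (S.u τ (θ x) - 1) (by rw [Submodule.pow_one]; exact S.u_sub_one_mem τ _) i a ha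
    rw [map_sub, map_one] at h2
    exact h2
  have h2 : ∀ x, F2 x ∈ M.opFil.P 1 := by
    intro x
    rw [FilRing.mem_P, hF2]
    show f2 x - 1 ∈ M.opIdeal 1
    intro i a ha
    exact hall x i a ha
  have hgen2 : ∀ r, F1 (FreeGroup.of r) * (F2 (FreeGroup.of r))⁻¹ ∈ M.opFil.P 2 := by
    intro r
    rw [FilRing.mem_P]
    have h3 : ((F1 (FreeGroup.of r) * (F2 (FreeGroup.of r))⁻¹ : (M.opRing)ˣ) : M.opRing) - 1
        = (f1 (FreeGroup.of r) - f2 (FreeGroup.of r))
          * (((F2 (FreeGroup.of r))⁻¹ : (M.opRing)ˣ) : M.opRing) := by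
      rw [sub_mul, ← hF2, Units.mul_inv, ← hF1, Units.val_mul]
    rw [h3]
    have := M.opFil.two 2
    refine Ideal.mul_mem_right _ _ ?_
    intro i a ha
    have h4 := hΨ2 2 _ (u_deg_one S ρ ε τ ι hJ hgen hact (θ (FreeGroup.of r))) i a ha
    have h5 : Ψ (S.u τ (θ (FreeGroup.of r)) - 1 - ι (fox (actE ρ) τ ε (θ (FreeGroup.of r))))
        = Ψ (S.u τ (θ (FreeGroup.of r))) - (φM (FreeGroup.of r)).toLinearMap := by
      rw [map_sub, map_sub, map_one, hΨ1]
      have h6 : Λ (fox (actE ρ) τ ε (θ (FreeGroup.of r))) = T r := hΛv r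
      rw [h6]
      simp only [T]
      abel
    rw [h5] at h4
    exact h4
  have hagree := agree_of_generators (M.opFil.P 2) F1 F2 hgen2
  have hle : M.opFil.P 2 ≤ M.opFil.P 1 := by
    intro g hg i a ha
    exact M.anti (by omega) (hg i a ha)
  have h3 := agree_mod_SS (M.opFil.P 1) (M.opFil.P 2) hle F1 F2 h1 h2 hagree j hσ
  have h4 := units_eq_of_P M (M.opFil.SS_le_P j h3)
  have h5 : f1 σ = 1 := by
    have h6 : f1 σ - 1 ∈ M.opIdeal (j + 2) := by
      intro i a ha
      have h7 := hΨ2 (j + 2) _ hσD.2 i a ha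
      rw [map_sub, map_one] at h7
      exact h7
    exact sub_eq_zero.1 (M.opIdeal_top le_rfl h6)
  have h6 : f2 σ = 1 := by
    rw [← hF2, ← h4, hF1, h5]
  have h7 : ((φM σ).toLinearMap : Module.End ℚ M.A) = 1 := congrArg Subtype.val h6
  apply LinearEquiv.toLinearMap_injective
  exact h7

/-- CP-7b (Step B) -/
theorem stepB {k d : ℕ} (c : ℕ) {E : Type} [AddCommGroup E] [Module ℚ E]
    [FiniteDimensional ℚ E] (ρ : TT k →* Module.End ℚ E) (ε : Fin d → E)
    (τ : FreeGroup (Fin d) →* TT k) :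
    ∃ S : Sys k d c, ∀ j < c, ∀ l ∈ gam τ.ker j, l ∈ S.D τ (j + 2) →
      l ∈ SS τ.ker (foxKer (actE ρ) τ ε) j := by
  obtain ⟨S, ι, hJ, hgen, hact, huniv⟩ := exists_tensorSys c ρ ε
  refine ⟨S, ?_⟩
  intro j hj l hl hlD
  obtain ⟨n, η, σ, hη, hσ, rfl⟩ := gam_lift τ.ker j hl
  obtain ⟨q, θ, φ, hθ, hagree, hind⟩ := exists_indep_lift τ.ker (foxKer (actE ρ) τ ε)
    (fox (actE ρ) τ ε) (fun x hx y _ => fox_mul_ker (actE ρ) τ ε hx y) (fun x => Iff.rfl) η hη
  have hLk : foxKer (actE ρ) τ ε ≤ τ.ker := fun x hx => hx.1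
  have h1 : η σ * (θ (φ σ))⁻¹ ∈ SS τ.ker (foxKer (actE ρ) τ ε) j :=
    agree_mod_SS τ.ker (foxKer (actE ρ) τ ε) hLk η (θ.comp φ) hη (fun x => hθ _) hagree j hσ
  have h2 : φ σ ∈ gam (⊤ : Subgroup (FreeGroup (Fin q))) j :=
    gam_map φ ⊤ ⊤ (fun _ _ => trivial) j hσ
  have hD2 := foxKer_le_D S ρ ε τ ι hJ hgen hact
  have h3 : θ (φ σ) ∈ S.D τ (j + 2) := by
    have h4 := SS_le_D S τ _ hD2 j h1
    have h5 : θ (φ σ) = (η σ * (θ (φ σ))⁻¹)⁻¹ * η σ := by group
    rw [h5]
    exact (S.D τ (j + 2)).mul_mem ((S.D τ (j + 2)).inv_mem h4) hlD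
  have h4 : φ σ ∈ gam (⊤ : Subgroup (FreeGroup (Fin q))) (j + 1) := by
    refine mem_gam_of_acts q j (φ σ) ?_
    intro M φM hraise
    exact stepB_acts ρ ε τ S ι hJ hgen hact θ hθ hind M (fun f hf => huniv (j + 2) M (by omega) f hf)
      h2 h3 φM hraise
  have h5 : θ (φ σ) ∈ gam τ.ker (j + 1) := gam_map θ ⊤ τ.ker (fun x _ => hθ x) (j + 1) h4
  have h6 := gam_succ_le_SS τ.ker (foxKer (actE ρ) τ ε) (commutator_le_foxKer (actE ρ) τ ε) j h5
  have h7 : η σ = (η σ * (θ (φ σ))⁻¹) * θ (φ σ) := by group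
  rw [h7]
  exact Subgroup.mul_mem _ h1 h6

end Pool.Agent.CP
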